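import Pool.Agent.W973.SRR.Defs

/-!
# The reduction is polynomial-time computable
-/

set_option autoImplicit false

namespace Pool.Agent.W132.SRR

open Pool.Agent.W973.SRR Pool.Agent.NPC

variable {α : Type} [TEnc α]

theorem idxOf_eq_aux (v : ℕ) : ∀ (l : List ℕ) (n : ℕ),
    ((((l.zipIdx n).filter fun q => decide (q.1 = v)).head?.map fun q => q.2).getD
      (n + l.length)) = n + l.idxOf v
  | [], n => by simp
  | a :: l, n => by
    rw [List.zipIdx_cons]
    by_cases h : a = v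
    · subst h
      simp
    · rw [List.filter_cons_of_neg (by simpa using h), List.idxOf_cons_ne _ h, List.length_cons]
      have := idxOf_eq_aux v l (n + 1)
      rw [show n + (l.length + 1) = n + 1 + l.length by ring, this]
      omega

theorem poly_idxOf {l : α → List ℕ} {v : α → ℕ} (hl : NPC.Poly l) (hv : NPC.Poly v) :
    NPC.Poly (fun a => (l a).idxOf (v a)) := by
  have h1 : NPC.Poly (fun a => (((l a).zipIdx).filter fun q => decide (q.1 = v a)).head?) :=
    NPC.Poly.head? (NPC.Poly.filter (p := fun a (q : ℕ × ℕ) => decide (q.1 = v a))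
      (NPC.Poly.zipIdx hl)
      (NPC.Poly.decide_eq (NPC.Poly.fst (NPC.Poly.snd NPC.Poly.id))
        (hv.comp (NPC.Poly.fst NPC.Poly.id))))
  refine (NPC.Poly.optCases (g := fun a => (l a).length) (h := fun _ b => b.2) h1
    (NPC.Poly.length hl) (NPC.Poly.snd (NPC.Poly.snd NPC.Poly.id))).congr fun a => ?_
  have := idxOf_eq_aux (v a) (l a) 0
  simp only [zero_add] at this
  rw [← this]
  cases (List.filter (fun q : ℕ × ℕ => decide (q.1 = v a)) (l a).zipIdx).head? <;> rfl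

theorem poly_flat : NPC.Poly flat := by
  have h : NPC.Poly (fun p : CNF × (Lit ℕ × Lit ℕ × Lit ℕ) => [p.2.1, p.2.2.1, p.2.2.2]) :=
    NPC.Poly.cons (NPC.Poly.fst (NPC.Poly.snd NPC.Poly.id))
      (NPC.Poly.cons (NPC.Poly.fst (NPC.Poly.snd (NPC.Poly.snd NPC.Poly.id)))
        (NPC.Poly.cons (NPC.Poly.snd (NPC.Poly.snd (NPC.Poly.snd NPC.Poly.id)))
          (NPC.Poly.const [])))
  exact NPC.Poly.flatMap (F := fun (_ : CNF) (c : Lit ℕ × Lit ℕ × Lit ℕ) => [c.1, c.2.1, c.2.2])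
    NPC.Poly.id h

theorem upoly_NO : UPoly NO := UPoly.length poly_flat

theorem poly_lit {f : α → CNF} {i : α → ℕ} (hf : NPC.Poly f) (hi : NPC.Poly i) :
    NPC.Poly (fun a => lit (f a) (i a)) :=
  NPC.Poly.getD (poly_flat.comp hf) hi (NPC.Poly.const (true, 0))

theorem poly_vv {f : α → CNF} {i : α → ℕ} (hf : NPC.Poly f) (hi : NPC.Poly i) :
    NPC.Poly (fun a => vv (f a) (i a)) :=
  NPC.Poly.snd (poly_lit hf hi)

theorem poly_occs {f : α → CNF} {x : α → ℕ} (hf : NPC.Poly f) (hx : NPC.Poly x) :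
    NPC.Poly (fun a => occs (f a) (x a)) :=
  NPC.Poly.filter (p := fun a j => decide (vv (f a) j = x a)) (UPoly.comp upoly_NO hf).range
    (NPC.Poly.decide_eq (poly_vv (hf.comp (NPC.Poly.fst NPC.Poly.id)) (NPC.Poly.snd NPC.Poly.id))
      (hx.comp (NPC.Poly.fst NPC.Poly.id)))

theorem poly_nxt {f : α → CNF} {i : α → ℕ} (hf : NPC.Poly f) (hi : NPC.Poly i) :
    NPC.Poly (fun a => nxt (f a) (i a)) := by
  have h := poly_occs hf (poly_vv hf hi)
  exact NPC.Poly.getD h (NPC.Poly.mod (NPC.Poly.add (poly_idxOf h hi) (NPC.Poly.const 1))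
    (NPC.Poly.length h)) (NPC.Poly.const 0)

theorem poly_prv {f : α → CNF} {i : α → ℕ} (hf : NPC.Poly f) (hi : NPC.Poly i) :
    NPC.Poly (fun a => prv (f a) (i a)) := by
  have h := poly_occs hf (poly_vv hf hi)
  exact NPC.Poly.getD h (NPC.Poly.mod (NPC.Poly.add (poly_idxOf h hi)
    (NPC.Poly.sub (NPC.Poly.length h) (NPC.Poly.const 1)))
    (NPC.Poly.length h)) (NPC.Poly.const 0)

theorem poly_nr {i : α → ℕ} (hi : NPC.Poly i) : NPC.Poly (fun a => nr (i a)) :=
  NPC.Poly.add (NPC.Poly.mul (NPC.Poly.const 3) (NPC.Poly.div hi (NPC.Poly.const 3)))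
    (NPC.Poly.mod (NPC.Poly.add (NPC.Poly.mod hi (NPC.Poly.const 3)) (NPC.Poly.const 1))
      (NPC.Poly.const 3))

theorem poly_pr {i : α → ℕ} (hi : NPC.Poly i) : NPC.Poly (fun a => pr (i a)) :=
  NPC.Poly.add (NPC.Poly.mul (NPC.Poly.const 3) (NPC.Poly.div hi (NPC.Poly.const 3)))
    (NPC.Poly.mod (NPC.Poly.add (NPC.Poly.mod hi (NPC.Poly.const 3)) (NPC.Poly.const 2))
      (NPC.Poly.const 3))

theorem poly_aV {i : α → ℕ} (hi : NPC.Poly i) : NPC.Poly (fun a => aV (i a)) :=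
  NPC.Poly.mul (NPC.Poly.const 8) hi

theorem poly_aW {i : α → ℕ} (hi : NPC.Poly i) : NPC.Poly (fun a => aW (i a)) :=
  NPC.Poly.add (NPC.Poly.mul (NPC.Poly.const 8) hi) (NPC.Poly.const 1)

theorem poly_aP {i : α → ℕ} (hi : NPC.Poly i) : NPC.Poly (fun a => aP (i a)) :=
  NPC.Poly.add (NPC.Poly.add (NPC.Poly.mul (NPC.Poly.const 8) (NPC.Poly.div hi (NPC.Poly.const 3)))
    (NPC.Poly.mul (NPC.Poly.const 2) (NPC.Poly.mod hi (NPC.Poly.const 3)))) (NPC.Poly.const 2)

theorem poly_aQ {i : α → ℕ} (hi : NPC.Poly i) : NPC.Poly (fun a => aQ (i a)) :=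
  NPC.Poly.add (NPC.Poly.add (NPC.Poly.mul (NPC.Poly.const 8) (NPC.Poly.div hi (NPC.Poly.const 3)))
    (NPC.Poly.mul (NPC.Poly.const 2) (NPC.Poly.mod hi (NPC.Poly.const 3)))) (NPC.Poly.const 3)

theorem poly_litb {f : α → CNF} {i : α → ℕ} (hf : NPC.Poly f) (hi : NPC.Poly i) :
    NPC.Poly (fun a => decide ((lit (f a) (i a)).1 = true)) :=
  NPC.Poly.decide_eq (NPC.Poly.fst (poly_lit hf hi)) (NPC.Poly.const true)

theorem poly_ot {f : α → CNF} {i : α → ℕ} (hf : NPC.Poly f) (hi : NPC.Poly i) :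
    NPC.Poly (fun a => ot (f a) (i a)) :=
  NPC.Poly.ite (p := fun a => (lit (f a) (i a)).1 = true) (poly_litb hf hi) (poly_aQ hi)
    (poly_aP (poly_pr hi))

theorem poly_inn {f : α → CNF} {i : α → ℕ} (hf : NPC.Poly f) (hi : NPC.Poly i) :
    NPC.Poly (fun a => inn (f a) (i a)) :=
  NPC.Poly.ite (p := fun a => (lit (f a) (i a)).1 = true) (poly_litb hf hi)
    (poly_aP (poly_pr hi)) (poly_aQ hi)

theorem poly_cnP {f : α → CNF} {i : α → ℕ} (hf : NPC.Poly f) (hi : NPC.Poly i) :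
    NPC.Poly (fun a => cnP (f a) (i a)) :=
  NPC.Poly.ite (p := fun a => (lit (f a) (nr (i a))).1 = true) (poly_litb hf (poly_nr hi))
    (poly_ot hf (poly_prv hf (poly_nr hi))) (poly_inn hf (poly_nxt hf (poly_nr hi)))

theorem poly_cnQ {f : α → CNF} {i : α → ℕ} (hf : NPC.Poly f) (hi : NPC.Poly i) :
    NPC.Poly (fun a => cnQ (f a) (i a)) :=
  NPC.Poly.ite (p := fun a => (lit (f a) (i a)).1 = true) (poly_litb hf hi)
    (poly_inn hf (poly_nxt hf hi)) (poly_ot hf (poly_prv hf hi))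

theorem poly_ov {f : α → CNF} {o : α → Option ℕ} {i : α → ℕ} (hf : NPC.Poly f)
    (ho : NPC.Poly o) (hi : NPC.Poly i) :
    NPC.Poly (fun a => decide (o a = some (vv (f a) (i a)))) :=
  NPC.Poly.decide_eq ho (NPC.Poly.some (poly_vv hf hi))

theorem poly_mt {f : α → CNF} {o : α → Option ℕ} {x : α → ℕ} (hf : NPC.Poly f)
    (ho : NPC.Poly o) (hx : NPC.Poly x) :
    NPC.Poly (fun a => mt (f a) (o a) (x a)) := by
  have h8 : NPC.Poly (fun a => x a / 8) := NPC.Poly.div hx (NPC.Poly.const 8)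
  have hm8 : NPC.Poly (fun a => x a % 8) := NPC.Poly.mod hx (NPC.Poly.const 8)
  have hm2 : NPC.Poly (fun a => x a % 2) := NPC.Poly.mod hx (NPC.Poly.const 2)
  have h38 : NPC.Poly (fun a => 3 * (x a / 8)) := NPC.Poly.mul (NPC.Poly.const 3) h8
  have h381 : NPC.Poly (fun a => 3 * (x a / 8) + 1) := NPC.Poly.add h38 (NPC.Poly.const 1)
  have h382 : NPC.Poly (fun a => 3 * (x a / 8) + 2) := NPC.Poly.add h38 (NPC.Poly.const 2)
  have hi : NPC.Poly (fun a => 3 * (x a / 8) + (x a % 8) / 2 - 1) :=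
    NPC.Poly.sub (NPC.Poly.add h38 (NPC.Poly.div hm8 (NPC.Poly.const 2))) (NPC.Poly.const 1)
  have hx1 : NPC.Poly (fun a => x a + 1) := NPC.Poly.add hx (NPC.Poly.const 1)
  have hxm : NPC.Poly (fun a => x a - 1) := NPC.Poly.sub hx (NPC.Poly.const 1)
  have c0 := poly_ov hf ho h38
  have c1 := poly_ov hf ho h381
  have c2 := poly_ov hf ho h382
  have ci := poly_ov hf ho hi
  have cn := poly_ov hf ho (poly_nr hi)
  refine NPC.Poly.ite (p := fun a => x a % 8 = 0) (NPC.Poly.decide_eq hm8 (NPC.Poly.const 0)) ?_ ?_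
  · refine NPC.Poly.ite (p := fun a => o a = some (vv (f a) (3 * (x a / 8)))) c0 (poly_aP h38) ?_
    refine NPC.Poly.ite (p := fun a => o a = some (vv (f a) (3 * (x a / 8) + 1))) c1
      (poly_aP h381) ?_
    exact NPC.Poly.ite (p := fun a => o a = some (vv (f a) (3 * (x a / 8) + 2))) c2
      (poly_aP h382) hx1
  · refine NPC.Poly.ite (p := fun a => x a % 8 = 1)
      (NPC.Poly.decide_eq hm8 (NPC.Poly.const 1)) ?_ ?_
    · refine NPC.Poly.ite (p := fun a => o a = some (vv (f a) (3 * (x a / 8)))) c0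
        (poly_aQ h382) ?_
      refine NPC.Poly.ite (p := fun a => o a = some (vv (f a) (3 * (x a / 8) + 1))) c1
        (poly_aQ h38) ?_
      exact NPC.Poly.ite (p := fun a => o a = some (vv (f a) (3 * (x a / 8) + 2))) c2
        (poly_aQ h381) hxm
    · refine NPC.Poly.ite (p := fun a => x a % 2 = 0)
        (NPC.Poly.decide_eq hm2 (NPC.Poly.const 0)) ?_ ?_
      · refine NPC.Poly.ite
          (p := fun a => o a = some (vv (f a) (3 * (x a / 8) + (x a % 8) / 2 - 1))) ci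
          (poly_aV h8) ?_
        exact NPC.Poly.ite
          (p := fun a => o a = some (vv (f a) (nr (3 * (x a / 8) + (x a % 8) / 2 - 1)))) cn
          (poly_cnP hf hi) hx1
      · refine NPC.Poly.ite
          (p := fun a => o a = some (vv (f a) (3 * (x a / 8) + (x a % 8) / 2 - 1))) ci
          (poly_cnQ hf hi) ?_
        exact NPC.Poly.ite
          (p := fun a => o a = some (vv (f a) (nr (3 * (x a / 8) + (x a % 8) / 2 - 1)))) cn
          (poly_aW h8) hxm

theorem poly_prs {n : α → ℕ} {g : α → ℕ → ℕ} (hn : UPoly n)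
    (hg : NPC.Poly (fun p : α × ℕ => g p.1 p.2)) : NPC.Poly (fun a => prs (n a) (g a)) :=
  NPC.Poly.map (F := fun a x => (x, g a x))
    (NPC.Poly.filter (p := fun a x => decide (x < g a x)) hn.range
      (NPC.Poly.decide_lt (NPC.Poly.snd NPC.Poly.id) hg))
    (NPC.Poly.pair (NPC.Poly.snd NPC.Poly.id) hg)

theorem upoly_n : UPoly (fun ψ : CNF => 8 * ψ.length) :=
  UPoly.mul (UPoly.const 8) (UPoly.length NPC.Poly.id)

theorem p2 : S_P2 := by
  refine NPC.Poly.pair upoly_n (NPC.Poly.cons ?_ ?_)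
  · exact poly_prs (g := fun ψ => mt ψ none) upoly_n
      (poly_mt (NPC.Poly.fst NPC.Poly.id) (NPC.Poly.const none) (NPC.Poly.snd NPC.Poly.id))
  · refine NPC.Poly.map (F := fun (ψ : CNF) (j : ℕ) => prs (8 * ψ.length) (mt ψ (some (vv ψ j))))
      upoly_NO.range ?_
    exact poly_prs (α := CNF × ℕ) (n := fun p => 8 * p.1.length)
      (g := fun p => mt p.1 (some (vv p.1 p.2)))
      (UPoly.comp (n := fun ψ : CNF => 8 * ψ.length) (f := fun p : CNF × ℕ => p.1) upoly_n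
        (NPC.Poly.fst NPC.Poly.id))
      (poly_mt (α := (CNF × ℕ) × ℕ) (f := fun q => q.1.1)
        (o := fun q => some (vv q.1.1 q.1.2)) (x := fun q => q.2)
        (NPC.Poly.fst (NPC.Poly.fst NPC.Poly.id))
        (NPC.Poly.some (poly_vv (NPC.Poly.fst (NPC.Poly.fst NPC.Poly.id))
          (NPC.Poly.snd (NPC.Poly.fst NPC.Poly.id))))
        (NPC.Poly.snd NPC.Poly.id))

end Pool.Agent.W132.SRR
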